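import Pool.Agent.U739.IS.ZMain2

set_option autoImplicit false

/-! # The strong monodromy conjecture for powers of forms with isolated weighted homogeneous
singularities in the projective space

Let `F` be a form of degree `d > 0` in `n = m + 1` variables, such that the hypersurface `F = 0` in `P^m` has
only isolated singularities, all weighted homogeneous (for example nodes, `A_k`, `D_k`, `E_k`, cones over
smooth hypersurfaces), and let `f = F ^ a`, `a ≥ 1`. So `f` has a singular locus of dimension `≤ 1` (for
`a = 1`), or is not reduced (for `a > 1`). The number `n` of the variables is arbitrary.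

The candidate poles are `-n/(a d)`, from the exceptional divisor of the blow-up of the origin,
`-1/a`, and `-∑ w_i / (a D)` for the singular points (with the weights `w_i` and the degree `D`). There is
no condition on resonances between these numbers.

The main point is the first number. If there is no linear vector field `v` with `v(F) = 0` and nonzero
trace, then `-n/(a d)` is a root of `b` (`core` in `Pool.Agent.U739.IS.Core`). If there is one, then `F` has
a second grading, in suitable linear coordinates (`exists_grading` in `Pool.Agent.U739.IS.Exc`), and
the weighted blow-up of the origin shows that `-n/(a d)` is not a pole.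

The proof that `-n/(a d)` is a root. Let `b(-n/(a d)) = c ≠ 0`. The functional equation gives a vector
field `v` with polynomial coefficients of degree `d k + 1`, for some `k`, with `v(F) = 0` and
`div v = c F ^ k`. If `k > 0`, then `v` is `∑ A_{ij} (∂_j F) ∂_i` with an antisymmetric matrix `A` (`st_mem`,
`koszul_field`), and the field with the coefficients `z_j = ∑ ∂_i A_{ij}`, minus a multiple of `F^(k-1)`
times the Euler field, has the same properties for `k - 1`, with a nonzero multiple of `c`. At the end
there is a linear vector field `v` with `v(F) = 0` and `div v ≠ 0`. For the existence of `A` one needs that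
`v_0` is in the ideal generated by `∂_1 F, …, ∂_m F`. This is shown at the singular points of `F = 0` in
the chart `x_0 = 1`, by a computation with the weights (`loc_main`). In the resonant degrees the
first-order term of the functional equation at `s = -n/(a d)` in the chart is used. The local
statement is transferred by flatness, by the Nullstellensatz, and by the exactness of the Koszul
complex of `x_0, ∂_1 F, …, ∂_m F`. -/

namespace Pool.Agent.Results.MP_b07157_ag.IsolatedCones

open MvPolynomial Pool.Agent.U739.IS Pool.Agent.W574.MO Pool.Agent.H628R4.TP

/-- **The strong monodromy conjecture, global (Q1) and local at the origin (Q2), for powers of forms in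
`m + 1` variables with isolated weighted homogeneous singularities.** `M` is a commutative ring with
a unit `L`, for example `M = K₀(Var_ℂ)[1/L]`. Let `F` be a form of degree `d > 0` in `m + 1` variables,
such that `F = 0` has only isolated weighted homogeneous singularities in `P^m`, in coordinates such
that the section by `x_0 = 0` is smooth (`IsoForm F d`), and let `a ≥ 1`.

(Q1) Let `b` satisfy a functional equation `b(s) f ^ s = P(s) f ^ (s + 1)` for `f = F ^ a`, and let `Z` be the
global motivic zeta function of `F ^ a` (`MotIso`). Let `R` be the ring `M[T][(1 - L^(-ν) T^N)⁻¹]`, where the
pairs `N, ν ≥ 1` are such that `-ν/N` is a root of `b`. Then `(L ^ k - 1) Z ∈ R` for some `k ≥ 1`, and `Z ∈ R`,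
if no `L ^ k - 1` is a zero divisor in `M`, or if there is no linear vector field `v` with `v(F) = 0` and
nonzero trace.

(Q2) If `b` satisfies such an equation where `P(s)` has formal power series at the origin as
coefficients (in particular `b = b_{f,0}`), then the same holds for the local motivic zeta function of
`F ^ a` at the origin (which is also of the form `MotIso`). -/
theorem result {M : Type} [CommRing M] (L : Mˣ) {m : ℕ} (F : MvPolynomial (Fin (m + 1)) ℂ)
    (d a : ℕ) (hF : IsoForm F d) (ha : 1 ≤ a) (b : Polynomial ℂ)
    (hb : IsBFunction (F ^ a) b ∨ IsLocalBFunction (F ^ a) b) (Z : PowerSeries M)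
    (hZ : MotIso L F a Z) :
    (∃ k : ℕ, 1 ≤ k ∧ PowerSeries.C ((L : M) ^ k - 1) * Z ∈ DenRing L (RootPair b)) ∧
    ((NoTrace F ∨ ∀ k : ℕ, 1 ≤ k → (L : M) ^ k - 1 ∈ nonZeroDivisors M) →
      Z ∈ DenRing L (RootPair b)) :=
  mot_main hF ha b (hb.elim id fun h => bfun_of_local hF b h) hZ

end Pool.Agent.Results.MP_b07157_ag.IsolatedCones
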