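import Pool.Agent.U841.SC.Top2
import Pool.Agent.U841.SC.Pt

set_option autoImplicit false

/-! # The strong monodromy conjecture for the motivic zeta functions of hypersurfaces resolved by the
blow-up of smooth centres

Let `f t`, `t ∈ T`, be finitely many squarefree nonconstant polynomials in `n` variables without common
factors, let `a t ≥ 1`, and let `F = ∏ t, f t ^ a t` (up to a constant every nonconstant polynomial is of
this form). Let `Z_i`, `i ∈ I`, be finitely many smooth centres of codimensions `c_i ≥ 2` (`Centre`: given
by formal coordinates at a point `p_i`), such that the fibre over `p_i` of the projectivized normal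
cone of `F = 0` along `Z_i` is a simple normal crossing divisor of the projective space `ℙ^(c_i-1)`, with
arbitrary multiplicities, and not just at most `c_i` hyperplanes (`ConeNC`).

This covers all `F` which are resolved by the blow-up of a smooth closed subvariety `Z = ⊔ Z_i` of `ℂ ^ n`
(points, curves, …, also of different dimensions), unless the hypersurfaces `f t = 0` already cross
normally at the general point of some `Z_i`. For then the exceptional divisor `E_i` over `Z_i` and the
strict transforms of the hypersurfaces form a simple normal crossing divisor, so by generic smoothness
the strict transforms meet the fibre `ℙ^(c_i-1)` of `E_i` over a general point `p_i` of `Z_i` in smooth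
hypersurfaces which cross normally; and these are the components of the projectivized normal cone.
The numbers of `E_i` are `ν = c_i` and `N =` the multiplicity of `F` along `Z_i`; those of the strict
transform of `f t = 0` are `1` and `a t`. (The same holds for successive blow-ups of subvarieties
`Z_i` of `ℂ ^ n`, respectively of their strict transforms, if none of them contains another one.) The
singularities of `F` are in general neither isolated nor reduced nor homogeneous nor locally
trivial along the `Z_i`. For a point `Z = {p}` the normal cone is the tangent cone (`init_point`).

The main point is that `-c/N` is a root of the Bernstein-Sato polynomials of `F` at the points of a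
centre `Z` near a point `p` at which the projectivized normal cone of `F = 0` along `Z` is such a divisor;
here `c` is the codimension of `Z` and `N` is the multiplicity of `F` along `Z` (`centre_root`). Outline of
the proof. Let `y = (x, z)` be formal coordinates at `p`, where the `x_1, …, x_c` are the coordinates which
vanish on `Z`. The functional equation `b(s) F ^ s = P(s) F ^ (s + 1)` is transported to differential
operators with formal power series coefficients in these coordinates (`transport`); such an operator
is the sum of an operator which preserves the order along `Z` and of operators of the form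
`∂_{x_l} u_l` (`decomp`). So the part of degree `N s` in `x` of the functional equation at `z = 0` says
that `b(s) G ^ s` is a sum of derivatives, with respect to the `x_l`, of elements of degree `N s + 1` of
`ℂ[s][x, 1/G] G ^ s`, where `G = initZ Z F` is the equation of the fibre of the normal cone (`extS`). Let
`b(-c/N) ≠ 0`. For `s = -c/N` it follows that the twisted form `G ^ (-c/N) ω` on the complement of the
divisor `G = 0` of `ℙ^(c-1)` is the differential of a form with poles. By the trick of Cayley, twisted
forms with poles along the components `g_t = 0`, `t = 0, …, r`, of the divisor become cohomology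
classes of the twisted de Rham complex of the function `∑_t y_t g_t` in the variables `x_j` and `y_t`,
whose symbol complex is the Koszul complex on the `c + r` elements `∑_t y_t ∂_j g_t` and `y_t g_t`,
`t ≥ 1`. By the normal crossings these elements generate an ideal which contains a power of the
product of the ideals `(x_j)` and `(y_t)`. The first homology of the Koszul complex vanishes in the
bidegrees which occur (`H1_NC`). Therefore the order of the poles can be lowered (`reduce`), and at
the end one gets a linear vector field `v` with `v(g_t) = c_t g_t` for all `t`, where `c_0 = 0`, and a
relation between `div v` and the `c_t`; this leads to a contradiction if `g_0` has degree `≥ 2` (`alg`), or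
if all the `g_t` are linear and `r ≥ c` (`alg2`). The roots `-1 / a t` come from general points of the
hypersurfaces `f t = 0` (`str_root`). -/

namespace Pool.Agent.Results.MP_b07157_ag.SmoothCentres

open MvPolynomial Pool.Agent.H628R4.TP Pool.Agent.TH192.DT Pool.Agent.R852.BM
  Pool.Agent.U841.SN Pool.Agent.U841.SC

/-- **The strong monodromy conjecture for the motivic zeta functions of hypersurfaces resolved by the
blow-up of smooth centres, global (Q1) and local at all points (Q2).** Let `Z(T)` be a series of the form
of the formula of Denef and Loeser for `F = ∏ t, f t ^ a t` on the blow-up of the centres, with arbitrary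
coefficients `c J` in a commutative ring `R` with a unit `u` (`R = 𝓜`, `u = 𝕃`). Q1: let
`b(s) F ^ s = P(s) F ^ (s + 1)`, where `P(s)` lies in the Weyl algebra. Q2: let `q` be a point, let
`c J = 0` unless all components in `J` occur near the fibre over `q` (`NearFibre`), and let
`b(s) F ^ s = P(s) F ^ (s + 1)`, where `P(s)` is a differential operator with formal (in particular
convergent) power series at `q` as coefficients. In both cases `Z(T)` lies in the ring generated over
`R` by `T` and the `1 / (1 - u ^ q₁ T ^ q₂)`, `q₁ < 0 < q₂`, with `b(q₁ / q₂) = 0` (`RootPairs b`); so every
pole of `Z(T)` is a root of `b`. -/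
theorem result {n : ℕ} {T I : Type} [Fintype T] [Fintype I] (f : T → MvPolynomial (Fin n) ℂ)
    (hu : ∀ t, ¬ IsUnit (f t)) (hsq : ∀ t, Squarefree (f t))
    (hcop : ∀ s t, s ≠ t → IsRelPrime (f s) (f t)) (a : T → ℕ) (ha : ∀ t, 0 < a t)
    (Z : I → Centre n) (hZ : ∀ i, ConeNC (Z i) (prodPow f a))
    (b : Polynomial ℂ) (R : Type) [CommRing R] (u : Rˣ)
    (c : Finset {o // 0 < mulZ Z (prodPow f a) a o} → R)
    (h : IsBFunction (prodPow f a) b ∨ ∃ q : Fin n → ℂ,
      IsLocalBFunction (shiftP q (prodPow f a)) b ∧
        ∀ J, c J ≠ 0 → ∀ o ∈ J, NearFibre Z (prodPow f a) f q o.1) :
    dlZ u (nuZ Z T) (mulZ Z (prodPow f a) a) c ∈ ratU u (RootPairs b) ∧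
      ∀ s₀ : ℚ, IsPoleU u (dlZ u (nuZ Z T) (mulZ Z (prodPow f a) a) c) s₀ →
        b.eval (s₀ : ℂ) = 0 := by
  have h1 : dlZ u (nuZ Z T) (mulZ Z (prodPow f a) a) c ∈ ratU u (RootPairs b) := by
    rcases h with hb | ⟨q, hb, hc⟩
    · exact glob_motZ hsq hcop ha Z hZ hu b hb u c
    · exact loc_motZ2 hsq hcop ha Z hZ q b hb u c hc
  exact ⟨h1, fun s₀ hs => root_of_poleU u h1 hs⟩

end Pool.Agent.Results.MP_b07157_ag.SmoothCentres
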