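import Pool.Agent.U184.Zeta

set_option autoImplicit false

/-! # The strong motivic monodromy conjecture for homogeneous polynomials in three variables with
weighted homogeneous singularities

Let `f` be a homogeneous polynomial of degree `d > 0` in three variables, which may be reducible and
non-reduced. The candidate poles of its zeta function come from the divisors over the points of
the plane projective curve `f = 0`, and from the exceptional divisor `P²` of the blow-up of the
origin, which gives the candidate `-3/d`. This file treats all poles other than `-3/d`, and also `-3/d`, if

* the curve `f = 0` has only weighted homogeneous singularities: at each singular point of the reduced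
  curve, `f` is, in suitable formal coordinates, a weighted homogeneous polynomial (`WHForm`). For
  instance `f = ∏ f_i ^ (m_i)` with arbitrary multiplicities `m_i`, where the reduced curve
  `∏ f_i = 0` has only simple singularities, ordinary multiple points of multiplicity at most 4,
  or other quasi-homogeneous singularities; and
* there is no linear vector field `v` of trace zero with `v(f) = f` (`NoField`). If there is one, then `f`
  is semi-invariant, with a nontrivial character, for a one-dimensional torus in `SL₃`: after a
  linear change of coordinates, the exponents of the monomials of `f` lie on a line which does not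
  contain `(d/3, d/3, d/3)` (for example `f = x^a y^b z^c` or `f = x^5 + y^4 z`). For these `f`, `-3/d` is
  in general not a root of the Bernstein-Sato polynomial. It should not be a pole either, but this
  is not proved here.

The main point is the following: if `b(-3/d) ≠ 0` and the singularities are weighted homogeneous, then
there is such a vector field `v` (`core` in `Pool.Agent.U184.Core`). The functional equation shows
that on the complement of the curve the twisted form `f ^ (-3/d) (x dy dz - y dx dz + z dx dy)` is
the differential of a form with poles of some order along the curve. The order of the poles is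
lowered step by step. Locally at a weighted homogeneous singularity this is a computation with the
Euler vector field; the functional equation at the points of the curve is used in order to treat
the degrees in which the twisted Euler field has no inverse; the global step uses the exactness of
the Koszul complex of `x, y, z`. At the end there is a form with poles of order one, which is given
by a linear vector field `v` with `v(f) = f` and trace zero.

The other poles are treated with the library (`plane_mot`): a functional equation of `f` gives
functional equations of the `f |_{x_i = 1}`, and the contributions of the points of the plane to the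
motivic zeta function lie in the ring whose denominators belong to roots of `b`. -/

namespace Pool.Agent.Results.MP_b07157_ag.TernaryForms

open MvPolynomial Pool.Agent.U184 Pool.Agent.W574.CN Pool.Agent.W574.MO Pool.Agent.H628R4.TP

/-- `Z` is (of the form of) the global motivic zeta function
`L⁻³ ∑_I [E_I°] ∏_{i ∈ I} (L - 1) / (L ^ (ν_i + N_i s) - 1)`, `T = L ^ (-s)`, of the homogeneous
polynomial `f` of degree `d` in three variables: `Z = L⁻³ (L - 1) Z_J / (1 - L⁻³ T ^ d)`, where `Z_J` is
the sum of the contributions of the points of the projective plane, see `ProjMot` (in
`Pool.Agent.W574.MO.FormDefs`) and `PlaneMot`, `MotLocal` (in `Pool.Agent.W574.MO.Defs`): it is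
computed from a resolution of the curve `f = 0` in `P²` by blowing up points.

An arc of `ℂ ^ 3` is `t ^ k x(t)` with `k ≥ 0` and `x(0) ≠ 0`, so that `Z` is `∑_k (L⁻³ T ^ d) ^ k` times
the integral over the arcs with `x(0) ≠ 0`, which is `L⁻³ (L - 1) Z_J`, because `ℂ ^ 3 ∖ 0` is, over the
sets `x_i ≠ 0`, the product of the projective plane with `ℂ ∖ 0`. -/
def GlobalMot {M : Type} [CommRing M] (L : Mˣ) (f : MvPolynomial (Fin 3) ℂ) (d : ℕ)
    (Z : PowerSeries M) : Prop :=
  ∃ Z' : PowerSeries M, ProjMot L (fun _ : Unit => f) Z' ∧
    Z = PowerSeries.C (((L⁻¹ ^ 3 : Mˣ) : M) * ((L : M) - 1)) * Z' * geo L d 3

/-- **The strong motivic monodromy conjecture, global (Q1) and local at the origin (Q2), for forms in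
three variables with weighted homogeneous singularities.** `M` is a commutative ring with a unit
`L`, for example `M = K₀(Var_ℂ)[1/L]`. Let `f ≠ 0` be a homogeneous polynomial of degree `d > 0` in
three variables.

(Q1) If `b` satisfies a functional equation `b(s) f ^ s = P(s) f ^ (s + 1)` with `P(s)` in the Weyl
algebra (in particular `b = b_f`), then the global motivic zeta function `Z` of `f` lies in the ring
`M[T][(1 - L⁻ⁿ Tᵃ)⁻¹]`, where the pairs `a, n ≥ 1` are such that `-n/a` is a root of `b`.

(Q2) If `b` satisfies such an equation where `P(s)` has formal power series at the origin as
coefficients (in particular `b = b_{f,0}`), then the same holds for the local motivic zeta function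
`Z` of `f` at the origin (`ConeMot`).

In both parts the pairs with `-n/a = -3/d` are allowed too, but only if the plane curve `f = 0` has a
singularity which is not weighted homogeneous, or if there is a linear vector field `v` of trace
zero with `v(f) = f` (`TernPair`). -/
theorem result {M : Type} [CommRing M] (L : Mˣ) (f : MvPolynomial (Fin 3) ℂ) (d : ℕ)
    (hd : 0 < d) (hf : f.IsHomogeneous d) (hf0 : f ≠ 0) :
    (∀ b : Polynomial ℂ, IsBFunction f b → ∀ Z : PowerSeries M, GlobalMot L f d Z →
      Z ∈ DenRing L (TernPair f d b)) ∧
    (∀ b : Polynomial ℂ, IsLocalBFunction f b → ∀ Z : PowerSeries M,
      ConeMot L (fun _ : Unit => f) d Z → Z ∈ DenRing L (TernPair f d b)) := by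
  refine ⟨fun b hb Z hZ => ?_, fun b hb Z hZ =>
    local_tern L f d hf b (global_of_local f hf0 d hf b hb) Z hZ⟩
  obtain ⟨Z', hZ', rfl⟩ := hZ
  exact Subring.mul_mem _ (Subring.mul_mem _ (C_mem _) (proj_tern L f d hf b hb Z' hZ'))
    (geo_mem hd (by norm_num) (pair_tern f d b hb))

end Pool.Agent.Results.MP_b07157_ag.TernaryForms
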